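import Pool.Agent.MP_3a00c0_gt.Mg.Final

/-!
The symmetry rank of a closed simply connected Riemannian manifold of dimension n with
nonnegative sectional curvature is at most 2n/3.
-/

open scoped Manifold ContDiff

namespace Pool.Agent.Results.MP_3a00c0_gt.SymmetryRank

open Pool.Agent.MP_3fed84_gt Pool.Agent.MP_3a00c0_gt

/-- If the torus T^k acts continuously and effectively by isometries on a compact simply
connected Riemannian manifold M of dimension n = dim E (smooth, Hausdorff, without boundary) with
nonnegative sectional curvature, then k ≤ ⌊2n/3⌋. -/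
theorem result (E : Type) [NormedAddCommGroup E] [InnerProductSpace ℝ E] [FiniteDimensional ℝ E]
    (M : Type) [TopologicalSpace M] [ChartedSpace E M] [IsManifold 𝓘(ℝ, E) ∞ M]
    [T2Space M] [CompactSpace M] [SimplyConnectedSpace M]
    (g : RiemMetric E M) (hg : NonnegCurvature g)
    (k : ℕ) [MulAction (Fin k → Circle) M] [ContinuousSMul (Fin k → Circle) M]
    [FaithfulSMul (Fin k → Circle) M]
    (hiso : ∀ t : Fin k → Circle, IsIsometry g (fun m : M => t • m)) :
    k ≤ 2 * Module.finrank ℝ E / 3 := by
  have h := symmetry_rank g hg k hiso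
  omega

end Pool.Agent.Results.MP_3a00c0_gt.SymmetryRank
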